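import Mathlib
import Pool.Agent.N251.GA.Leaves2
import Pool.Agent.N186.GA.NF

/-!
# The radical of an integer in `ℚ(√5)`
-/

set_option autoImplicit false
set_option linter.unusedSectionVars false

namespace Pool.Agent.N2.GA

open NumberField IsDedekindDomain Pool.Agent.N251.GA Pool.Agent.N186.GANF

variable {K : Type} [Field K] [NumberField K]

/-- the absolute norm of a rational prime -/
theorem norm_p (h2 : Module.finrank ℚ K = 2) (p : ℕ) :
    (Algebra.norm ℤ (p : 𝓞 K)).natAbs = p ^ 2 := by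
  have h : Module.finrank ℤ (𝓞 K) = 2 := by rw [RingOfIntegers.rank, h2]
  rw [Algebra.norm_natCast, h, Int.natAbs_pow, Int.natAbs_natCast]

theorem cast_ne {p : ℕ} (hp : p.Prime) : (p : 𝓞 K) ≠ 0 := by
  exact_mod_cast hp.ne_zero

/-- integers in a prime ideal above `p` -/
theorem int_mem {p : ℕ} (hp : p.Prime) {I : Ideal (𝓞 K)} (hI : I ≠ ⊤) (hpI : (p : 𝓞 K) ∈ I)
    {k : ℤ} (hk : (k : 𝓞 K) ∈ I) : (p : ℤ) ∣ k := by
  by_contra h
  have hc : IsCoprime (p : ℤ) k := by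
    rw [Int.isCoprime_iff_gcd_eq_one]
    rcases (Nat.dvd_prime hp).1 (show Int.gcd (p : ℤ) k ∣ p by
      have := Int.gcd_dvd_left (p : ℤ) k
      exact_mod_cast this) with h1 | h1
    · exact h1
    · exfalso
      apply h
      have := Int.gcd_dvd_right (p : ℤ) k
      rwa [h1] at this
  obtain ⟨a, b, hab⟩ := hc
  apply hI
  rw [Ideal.eq_top_iff_one]
  have h1 : (1 : 𝓞 K) = (a : 𝓞 K) * (p : 𝓞 K) + (b : 𝓞 K) * (k : 𝓞 K) := by
    have := congrArg (fun z : ℤ => (z : 𝓞 K)) hab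
    push_cast at this
    exact this.symm
  rw [h1]
  exact I.add_mem (I.mul_mem_left _ hpI) (I.mul_mem_left _ hk)

/-- the norm of a prime above `p` -/
theorem norm_P (h2 : Module.finrank ℚ K = 2) {p : ℕ} (hp : p.Prime)
    (P : HeightOneSpectrum (𝓞 K)) (hP : (p : 𝓞 K) ∈ P.asIdeal) :
    Ideal.absNorm P.asIdeal = p ∨ Ideal.absNorm P.asIdeal = p ^ 2 := by
  have h1 : Ideal.span {(p : 𝓞 K)} ≤ P.asIdeal := by
    rw [Ideal.span_le]
    simpa using hP
  have h3 := Ideal.absNorm_dvd_absNorm_of_le h1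
  rw [Ideal.absNorm_span_singleton, norm_p h2] at h3
  obtain ⟨k, hk, hk2⟩ := (Nat.dvd_prime_pow hp).1 h3
  have h4 : Ideal.absNorm P.asIdeal ≠ 1 := by
    rw [Ne, Ideal.absNorm_eq_one_iff]
    exact P.isPrime.ne_top
  interval_cases k
  · exact absurd (by simpa using hk2) h4
  · left
    simpa using hk2
  · right
    exact hk2

/-- a maximal ideal containing `p` -/
theorem exists_P {p : ℕ} (hp : p.Prime) {J : Ideal (𝓞 K)} (hJ : J ≠ ⊤) (hpJ : (p : 𝓞 K) ∈ J) :
    ∃ P : HeightOneSpectrum (𝓞 K), J ≤ P.asIdeal := by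
  obtain ⟨M, hM, hJM⟩ := Ideal.exists_le_maximal J hJ
  refine ⟨⟨M, hM.isPrime, ?_⟩, hJM⟩
  rintro rfl
  exact cast_ne hp (Ideal.mem_bot.1 (hJM hpJ))

theorem span_ne {p : ℕ} (h2 : Module.finrank ℚ K = 2) (hp : p.Prime) :
    Ideal.span {(p : 𝓞 K)} ≠ ⊤ := by
  intro h
  have h3 := congrArg Ideal.absNorm h
  rw [Ideal.absNorm_span_singleton, norm_p h2, Ideal.absNorm_top] at h3
  have := hp.one_lt
  nlinarith

theorem radK_p_le (h2 : Module.finrank ℚ K = 2) {p : ℕ} (hp : p.Prime) :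
    radK (p : 𝓞 K) ≤ (p : ℝ) ^ 2 := by
  have h := radK_le (p : 𝓞 K) (cast_ne hp)
  rw [prod_eq, norm_p h2] at h
  exact_mod_cast h

theorem le_radK {p : ℕ} (hp : p.Prime) (P : HeightOneSpectrum (𝓞 K))
    (hP : (p : 𝓞 K) ∈ P.asIdeal) : (Ideal.absNorm P.asIdeal : ℝ) ≤ radK (p : 𝓞 K) := by
  classical
  rw [radK_eq _ (cast_ne hp)]
  have h := prod_mono {P} (finPP (p : 𝓞 K) (cast_ne hp)).toFinset (by simpa using hP)
  simpa using h

theorem le_radK2 {p : ℕ} (hp : p.Prime) (P P' : HeightOneSpectrum (𝓞 K)) (hne : P ≠ P')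
    (hP : (p : 𝓞 K) ∈ P.asIdeal) (hP' : (p : 𝓞 K) ∈ P'.asIdeal) :
    (Ideal.absNorm P.asIdeal : ℝ) * (Ideal.absNorm P'.asIdeal : ℝ) ≤ radK (p : 𝓞 K) := by
  classical
  rw [radK_eq _ (cast_ne hp)]
  have h := prod_mono {P, P'} (finPP (p : 𝓞 K) (cast_ne hp)).toFinset (by
    intro Q hQ
    rw [Finset.mem_insert, Finset.mem_singleton] at hQ
    rcases hQ with rfl | rfl
    · simpa using hP
    · simpa using hP')
  rwa [Finset.prod_pair hne] at h

/-- a residue field with `p` elements: every element is congruent to an integer -/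
theorem exists_int (P : HeightOneSpectrum (𝓞 K)) {p : ℕ} (hp : p.Prime)
    (hP : (p : 𝓞 K) ∈ P.asIdeal) (hN : Ideal.absNorm P.asIdeal = p) (x : 𝓞 K) :
    ∃ m : ℤ, x - m ∈ P.asIdeal := by
  have hcard : Nat.card (𝓞 K ⧸ P.asIdeal) = p := hN
  have hfin : Finite (𝓞 K ⧸ P.asIdeal) := Nat.finite_of_card_ne_zero (by rw [hcard]; exact hp.ne_zero)
  let f : Fin p → 𝓞 K ⧸ P.asIdeal := fun i => Ideal.Quotient.mk P.asIdeal ((i : ℕ) : 𝓞 K)
  have hf : Function.Injective f := by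
    intro i j hij
    have h1 : ((i : ℕ) : 𝓞 K) - ((j : ℕ) : 𝓞 K) ∈ P.asIdeal := Ideal.Quotient.eq.1 hij
    have h2 : (((i : ℕ) : ℤ) - ((j : ℕ) : ℤ) : ℤ) = (((i : ℕ) : ℤ) - ((j : ℕ) : ℤ)) := rfl
    have h3 : (p : ℤ) ∣ ((i : ℕ) : ℤ) - ((j : ℕ) : ℤ) := by
      refine int_mem hp P.isPrime.ne_top hP ?_
      push_cast
      exact h1
    have h4 := Int.eq_zero_of_abs_lt_dvd h3 (by
      rw [abs_lt]
      have := i.2
      have := j.2
      constructor <;> omega)
    apply Fin.ext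
    omega
  have hbij : Function.Bijective f := by
    have := Fintype.ofFinite (𝓞 K ⧸ P.asIdeal)
    rw [Fintype.bijective_iff_injective_and_card]
    refine ⟨hf, ?_⟩
    rw [Fintype.card_fin, ← Nat.card_eq_fintype_card, hcard]
  obtain ⟨i, hi⟩ := hbij.2 (Ideal.Quotient.mk P.asIdeal x)
  refine ⟨((i : ℕ) : ℤ), ?_⟩
  have h1 : ((i : ℕ) : 𝓞 K) - x ∈ P.asIdeal := Ideal.Quotient.eq.1 hi
  have h2 := P.asIdeal.neg_mem h1
  rw [neg_sub] at h2
  exact_mod_cast h2

/-- `(1 + √5)/2` -/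
theorem exists_alpha {s : K} (hs : s ^ 2 = 5) : ∃ α : 𝓞 K, α ^ 2 = α + 1 := by
  have hint : IsIntegral ℤ ((1 + s) / 2) := by
    refine ⟨Polynomial.X ^ 2 - Polynomial.X - 1, ?_, ?_⟩
    · rw [sub_sub]
      apply Polynomial.monic_X_pow_sub
      compute_degree
      norm_num
    · simp only [Polynomial.eval₂_sub, Polynomial.eval₂_pow, Polynomial.eval₂_X,
        Polynomial.eval₂_one]
      linear_combination (1 / 4 : K) * hs
  refine ⟨⟨(1 + s) / 2, hint⟩, ?_⟩
  apply RingOfIntegers.ext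
  show ((1 + s) / 2) ^ 2 = (1 + s) / 2 + 1
  linear_combination (1 / 4 : K) * hs

theorem alpha_not_int {α : 𝓞 K} (hα : α ^ 2 = α + 1) (k : ℤ) : α ≠ k := by
  rintro rfl
  have h : k ^ 2 = k + 1 := by exact_mod_cast hα
  have h1 : (k * k) % 2 = (k + 1) % 2 := by rw [← h, sq]
  rcases Int.even_or_odd k with h2 | h2 <;> obtain ⟨j, rfl⟩ := h2
  · ring_nf at h1
    omega
  · ring_nf at h1
    omega

/-- `α - m` is not divisible by `p` -/
theorem not_dvd {α : 𝓞 K} (hα : α ^ 2 = α + 1) {p : ℕ} (hp : p.Prime) {m : ℤ}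
    (h1 : (p : ℤ) ∣ m ^ 2 - m - 1) (h2 : ¬ (p : ℤ) ∣ 2 * m - 1) : ¬ (p : 𝓞 K) ∣ α - m := by
  rintro ⟨δ, hδ⟩
  obtain ⟨c, hc⟩ := h1
  have hp0 : (p : 𝓞 K) ≠ 0 := cast_ne hp
  have hroot : (p : 𝓞 K) * δ ^ 2 + (2 * m - 1) * δ + c = 0 := by
    have hc' : (m : 𝓞 K) ^ 2 - m - 1 = p * c := by exact_mod_cast congrArg (fun z : ℤ => (z : 𝓞 K)) hc
    have : (p : 𝓞 K) * ((p : 𝓞 K) * δ ^ 2 + (2 * m - 1) * δ + c) = 0 := by
      have e1 : α = m + p * δ := by rw [← hδ]; ring
      rw [e1] at hα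
      linear_combination hα - hc'
    exact (mul_eq_zero.1 this).resolve_left hp0
  have hint : IsIntegral ℤ δ := RingOfIntegers.isIntegral δ
  set q : Polynomial ℤ := Polynomial.C (p : ℤ) * Polynomial.X ^ 2 +
    Polynomial.C (2 * m - 1) * Polynomial.X + Polynomial.C c with hq
  have hq0 : Polynomial.aeval δ q = 0 := by
    rw [hq]
    simp only [map_add, map_mul, Polynomial.aeval_C, Polynomial.aeval_X, map_pow]
    simpa using hroot
  obtain ⟨r, hr⟩ := minpoly.isIntegrallyClosed_dvd hint hq0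
  have hdeg : 2 ≤ (minpoly ℤ δ).natDegree := by
    rw [minpoly.two_le_natDegree_iff hint]
    rintro ⟨k, hk⟩
    apply alpha_not_int hα (m + p * k)
    have e1 : α = m + p * δ := by rw [← hδ]; ring
    rw [e1, ← hk]
    simp
  have hpz : (p : ℤ) ≠ 0 := by exact_mod_cast hp.ne_zero
  have hqd : q.natDegree = 2 := Polynomial.natDegree_quadratic hpz
  have hqne : q ≠ 0 := by
    rintro h
    rw [h, Polynomial.natDegree_zero] at hqd
    omega
  have hrne : r ≠ 0 := by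
    rintro rfl
    rw [mul_zero] at hr
    exact hqne hr
  have hmon : (minpoly ℤ δ).Monic := minpoly.monic hint
  have hsum : q.natDegree = (minpoly ℤ δ).natDegree + r.natDegree := by
    rw [hr, hmon.natDegree_mul' hrne]
  have hr0 : r.natDegree = 0 := by omega
  obtain ⟨t, ht⟩ := Polynomial.natDegree_eq_zero.1 hr0
  have hmd : (minpoly ℤ δ).natDegree = 2 := by omega
  have hc2 : q.coeff 2 = t := by
    rw [hr, ← ht, Polynomial.coeff_mul_C]
    have : (minpoly ℤ δ).coeff 2 = 1 := by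
      rw [← hmd]
      exact hmon.coeff_natDegree
    rw [this, one_mul]
  have hc2' : q.coeff 2 = p := by
    rw [hq]
    simp only [Polynomial.coeff_add, Polynomial.coeff_C_mul, Polynomial.coeff_X_pow,
      Polynomial.coeff_X, Polynomial.coeff_C]
    norm_num
  have hc1 : q.coeff 1 = (minpoly ℤ δ).coeff 1 * t := by
    conv_lhs => rw [hr, ← ht, Polynomial.coeff_mul_C]
  have hc1' : q.coeff 1 = 2 * m - 1 := by
    rw [hq]
    simp only [Polynomial.coeff_add, Polynomial.coeff_C_mul, Polynomial.coeff_X_pow,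
      Polynomial.coeff_X, Polynomial.coeff_C]
    norm_num
  apply h2
  rw [← hc1', hc1, ← hc2, hc2']
  exact Dvd.intro_left _ rfl

/-- the lower bound at `p ≠ 5` -/
theorem radK_p_ge (h2 : Module.finrank ℚ K = 2) {s : K} (hs : s ^ 2 = 5) {p : ℕ} (hp : p.Prime)
    (hp5 : p ≠ 5) : (p : ℝ) ^ 2 ≤ radK (p : 𝓞 K) := by
  obtain ⟨P, hP⟩ := exists_P hp (span_ne h2 hp) (Ideal.mem_span_singleton_self _)
  have hpP : (p : 𝓞 K) ∈ P.asIdeal := hP (Ideal.mem_span_singleton_self _)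
  rcases norm_P h2 hp P hpP with hN | hN
  swap
  · have := le_radK hp P hpP
    rw [hN] at this
    exact_mod_cast this
  obtain ⟨α, hα⟩ := exists_alpha hs
  obtain ⟨m, hm⟩ := exists_int P hp hpP hN α
  have hkey : (α - m) * (α - 1 + m) = -((m ^ 2 - m - 1 : ℤ) : 𝓞 K) := by
    push_cast
    linear_combination hα
  have hd1 : (p : ℤ) ∣ m ^ 2 - m - 1 := by
    refine int_mem hp P.isPrime.ne_top hpP ?_
    have h3 := P.asIdeal.mul_mem_right (α - 1 + m) hm
    rw [hkey] at h3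
    exact (Ideal.neg_mem_iff _).1 h3
  have hd2 : ¬ (p : ℤ) ∣ 2 * m - 1 := by
    intro h3
    have h4 : (p : ℤ) ∣ 5 := by
      have h5 : (5 : ℤ) = (2 * m - 1) * (2 * m - 1) - 4 * (m ^ 2 - m - 1) := by ring
      rw [h5]
      exact dvd_sub (Dvd.dvd.mul_left h3 _) (Dvd.dvd.mul_left hd1 _)
    have h6 : p ∣ 5 := by exact_mod_cast h4
    exact hp5 ((Nat.prime_dvd_prime_iff_eq hp (by norm_num)).1 h6)
  have hnd := not_dvd hα hp hd1 hd2
  set J : Ideal (𝓞 K) := Ideal.span {(p : 𝓞 K), α - 1 + m} with hJ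
  have hJtop : J ≠ ⊤ := by
    intro h
    have h1 : (1 : 𝓞 K) ∈ J := by rw [h]; trivial
    rw [hJ, Ideal.mem_span_pair] at h1
    obtain ⟨a, b, hab⟩ := h1
    apply hnd
    obtain ⟨c, hc⟩ := hd1
    refine ⟨a * (α - m) - b * c, ?_⟩
    have hc' : ((m ^ 2 - m - 1 : ℤ) : 𝓞 K) = p * c := by rw [hc]; push_cast; ring
    rw [hc'] at hkey
    linear_combination (-(α - m)) * hab + b * hkey
  have hpJ : (p : 𝓞 K) ∈ J := Ideal.subset_span (by simp)
  obtain ⟨P', hP'⟩ := exists_P hp hJtop hpJ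
  have hne : P ≠ P' := by
    rintro rfl
    apply hd2
    refine int_mem hp P.isPrime.ne_top hpP ?_
    have h3 : α - 1 + m ∈ P.asIdeal := hP' (Ideal.subset_span (by simp))
    have h4 := P.asIdeal.sub_mem h3 hm
    have h5 : ((2 * m - 1 : ℤ) : 𝓞 K) = α - 1 + m - (α - m) := by
      push_cast
      ring
    rw [h5]
    exact h4
  have h3 := le_radK2 hp P P' hne hpP (hP' hpJ)
  rw [hN] at h3
  have h4 : (p : ℝ) ≤ (Ideal.absNorm P'.asIdeal : ℝ) := by
    rcases norm_P h2 hp P' (hP' hpJ) with h5 | h5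
    · rw [h5]
    · rw [h5]
      have h6 : (1 : ℝ) ≤ p := by exact_mod_cast hp.one_lt.le
      push_cast
      nlinarith
  have h7 : (0 : ℝ) ≤ p := Nat.cast_nonneg p
  nlinarith

/-- the lower bound at all primes -/
theorem le_radK_p (h2 : Module.finrank ℚ K = 2) {p : ℕ} (hp : p.Prime) :
    (p : ℝ) ≤ radK (p : 𝓞 K) := by
  obtain ⟨P, hP⟩ := exists_P hp (span_ne h2 hp) (Ideal.mem_span_singleton_self _)
  have hpP : (p : 𝓞 K) ∈ P.asIdeal := hP (Ideal.mem_span_singleton_self _)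
  refine le_trans ?_ (le_radK hp P hpP)
  rcases norm_P h2 hp P hpP with h5 | h5
  · rw [h5]
  · rw [h5]
    have h6 : (1 : ℝ) ≤ p := by exact_mod_cast hp.one_lt.le
    push_cast
    nlinarith

/-- the radical is a product over the rational primes -/
theorem radK_int (n : ℤ) (hn : n ≠ 0) :
    radK (n : 𝓞 K) = ∏ p ∈ n.natAbs.primeFactors, radK (p : 𝓞 K) := by
  classical
  have hn' : (n : 𝓞 K) ≠ 0 := by exact_mod_cast hn
  rw [radK_eq _ hn']
  have h1 : ∀ p ∈ n.natAbs.primeFactors, radK (p : 𝓞 K) =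
      ∏ P ∈ (finPP (n : 𝓞 K) hn').toFinset with (p : 𝓞 K) ∈ P.asIdeal,
        (Ideal.absNorm P.asIdeal : ℝ) := by
    intro p hp
    have hpp := Nat.prime_of_mem_primeFactors hp
    rw [radK_eq _ (cast_ne hpp)]
    congr 1
    ext P
    simp only [Set.Finite.mem_toFinset, Set.mem_ofPred_eq, Finset.mem_filter]
    refine ⟨fun h => ⟨?_, h⟩, fun h => h.2⟩
    have hd : (p : ℤ) ∣ n := Int.natCast_dvd.2 (Nat.dvd_of_mem_primeFactors hp)
    obtain ⟨c, hc⟩ := hd
    rw [hc]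
    push_cast
    exact P.asIdeal.mul_mem_right _ h
  rw [Finset.prod_congr rfl h1, ← Finset.prod_biUnion]
  · congr 1
    ext P
    rw [Finset.mem_biUnion]
    constructor
    · intro hP
      have hnP : (n : 𝓞 K) ∈ P.asIdeal := by simpa using hP
      have hprod : ((∏ p ∈ n.natAbs.primeFactors, p ^ n.natAbs.factorization p : ℕ) : 𝓞 K) ∈
          P.asIdeal := by
        have h3 : ∏ p ∈ n.natAbs.primeFactors, p ^ n.natAbs.factorization p = n.natAbs :=
          Nat.prod_factorization_pow_eq_self (Int.natAbs_ne_zero.2 hn)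
        rw [h3]
        rw [← Int.cast_natCast]
        rcases Int.natAbs_eq n with h4 | h4
        · rw [← h4]
          exact hnP
        · have h5 : ((n.natAbs : ℕ) : ℤ) = -n := by omega
          rw [h5, Int.cast_neg]
          exact (Ideal.neg_mem_iff _).2 hnP
      rw [Nat.cast_prod] at hprod
      obtain ⟨p, hp, hpP⟩ := (P.isPrime.prod_mem_iff).1 hprod
      refine ⟨p, hp, ?_⟩
      rw [Finset.mem_filter]
      refine ⟨hP, ?_⟩
      rw [Nat.cast_pow] at hpP
      exact P.isPrime.mem_of_pow_mem _ hpP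
    · rintro ⟨p, _, hP⟩
      exact (Finset.mem_filter.1 hP).1
  · intro p hp q hq hpq
    rw [Function.onFun, Finset.disjoint_left]
    intro P hP hQ
    have h3 := (Finset.mem_filter.1 hP).2
    have h4 := (Finset.mem_filter.1 hQ).2
    have hpp := Nat.prime_of_mem_primeFactors hp
    have hqp := Nat.prime_of_mem_primeFactors hq
    have h5 := int_mem hpp P.isPrime.ne_top h3 (k := (q : ℤ)) (by exact_mod_cast h4)
    have h6 : p ∣ q := by exact_mod_cast h5
    exact hpq ((Nat.prime_dvd_prime_iff_eq hpp hqp).1 h6)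

theorem t : LeafRadKZ := by
  classical
  intro K _ _ h2 hs n hn
  obtain ⟨s, hs⟩ := hs
  rw [radK_int n hn]
  have hZ : radZ n ^ 2 = ∏ p ∈ n.natAbs.primeFactors, (p : ℝ) ^ 2 := by
    unfold radZ
    rw [Finset.prod_pow]
  rw [hZ]
  constructor
  · refine Finset.prod_le_prod (fun p _ => ?_) fun p hp => ?_
    · exact zero_le_one.trans (one_le_radK _)
    · exact radK_p_le h2 (Nat.prime_of_mem_primeFactors hp)
  · have h1 : ∏ p ∈ n.natAbs.primeFactors, (p : ℝ) ^ 2 ≤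
        ∏ p ∈ n.natAbs.primeFactors, ((if p = 5 then 5 else 1) * radK (p : 𝓞 K)) := by
      refine Finset.prod_le_prod (fun p _ => by positivity) fun p hp => ?_
      have hpp := Nat.prime_of_mem_primeFactors hp
      split_ifs with h5
      · have h6 := le_radK_p (K := K) h2 hpp
        rw [h5] at h6 ⊢
        push_cast at h6 ⊢
        nlinarith
      · rw [one_mul]
        exact radK_p_ge h2 hs hpp h5
    refine h1.trans ?_
    rw [Finset.prod_mul_distrib]
    refine mul_le_mul_of_nonneg_right ?_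
      (Finset.prod_nonneg fun p _ => zero_le_one.trans (one_le_radK _))
    rw [Finset.prod_ite_eq' n.natAbs.primeFactors 5 (fun _ => (5 : ℝ))]
    split_ifs <;> norm_num

end Pool.Agent.N2.GA
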